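import Pool.Agent.Helper19.Un.Stmts

set_option autoImplicit false

/-!
# Integrals of horizontal derivatives over the cell vanish
-/

namespace Pool.Agent.Helper19.Un

open MeasureTheory Topology Set
open scoped ComplexConjugate

noncomputable section

/-! ### General facts on periodic functions -/

/-- integral of a derivative of a periodic function -/
theorem div_int_deriv_succ {n : ℕ} {H : (Fin (n + 1) → ℝ) → ℂ} (hH : ContDiff ℝ 1 H)
    (i : Fin (n + 1)) (hp : ∀ x, H (x + Pi.single i 1) = H x) :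
    ∫ x in Icc (0 : Fin (n + 1) → ℝ) 1, fderiv ℝ H x (Pi.single i 1) = 0 := by
  have hc : Continuous (fun x => fderiv ℝ H x (Pi.single i 1)) :=
    (hH.continuous_fderiv one_ne_zero).clm_apply continuous_const
  have hs : ∀ x : Fin (n + 1) → ℝ, ∑ j, (if j = i then fderiv ℝ H x else 0) (Pi.single j 1) =
      fderiv ℝ H x (Pi.single i 1) := by
    intro x
    rw [Finset.sum_eq_single i]
    · rw [if_pos rfl]
    · intro j _ hj
      rw [if_neg hj]
      rfl
    · intro h
      exact absurd (Finset.mem_univ i) h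
  have key := integral_divergence_of_hasFDerivAt_off_countable' (n := n) (E := ℂ)
    (0 : Fin (n + 1) → ℝ) 1 (by intro j; simp) (fun j => if j = i then H else fun _ => 0)
    (fun j x => if j = i then fderiv ℝ H x else 0) ∅ countable_empty
    (by
      intro j
      by_cases hj : j = i
      · simp only [if_pos hj]
        exact hH.continuous.continuousOn
      · simp only [if_neg hj]
        exact continuousOn_const)
    (by
      intro x _ j
      by_cases hj : j = i
      · simp only [if_pos hj]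
        exact (hH.differentiable (by norm_num) x).hasFDerivAt
      · simp only [if_neg hj]
        exact hasFDerivAt_const _ _)
    (by
      simp only [hs]
      exact hc.continuousOn.integrableOn_compact isCompact_Icc)
  simp only [hs] at key
  rw [key]
  apply Finset.sum_eq_zero
  intro j _
  by_cases hj : j = i
  · subst hj
    rw [sub_eq_zero]
    congr 1
    funext y
    simp only [if_true]
    have e : (j.insertNth ((1 : Fin (n + 1) → ℝ) j) y : Fin (n + 1) → ℝ)
        = (j.insertNth ((0 : Fin (n + 1) → ℝ) j) y : Fin (n + 1) → ℝ) + Pi.single j 1 := by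
      funext l
      refine Fin.succAboveCases j ?_ ?_ l
      · simp
      · intro l
        simp
    exact (congrArg H e).trans (hp _)
  · simp only [if_neg hj]
    simp

/-- integral of a directional derivative of a periodic function -/
theorem div_int_deriv {n : ℕ} {H : (Fin n → ℝ) → ℂ} (hH : ContDiff ℝ 1 H)
    (hp : ∀ (i : Fin n) x, H (x + Pi.single i 1) = H x) (v : Fin n → ℝ) :
    ∫ x in Icc (0 : Fin n → ℝ) 1, fderiv ℝ H x v = 0 := by
  have e1 : ∀ x, fderiv ℝ H x v = ∑ i, v i • fderiv ℝ H x (Pi.single i 1) := by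
    intro x
    have h1 : v = ∑ i, v i • (Pi.single i 1 : Fin n → ℝ) := by
      funext j
      rw [Finset.sum_apply]
      simp [Pi.single_apply]
    conv_lhs => rw [h1]
    rw [map_sum]
    refine Finset.sum_congr rfl fun i _ => ?_
    rw [map_smul]
  simp only [e1]
  rw [integral_finsetSum]
  · refine Finset.sum_eq_zero fun i _ => ?_
    rw [integral_smul]
    cases n with
    | zero => exact i.elim0
    | succ n => rw [div_int_deriv_succ hH i (hp i), smul_zero]
  · intro i _
    have hc0 : Continuous (fun x => fderiv ℝ H x (Pi.single i 1)) :=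
      (hH.continuous_fderiv one_ne_zero).clm_apply continuous_const
    have hc : Continuous (fun x => v i • fderiv ℝ H x (Pi.single i 1)) := hc0.const_smul (v i)
    exact hc.continuousOn.integrableOn_compact isCompact_Icc

/-- the central average -/
def div_av {n : ℕ} (G : (Fin n → ℝ) × ℝ → ℂ) (y : Fin n → ℝ) : ℂ := ∫ t in (0 : ℝ)..1, G (y, t)

theorem div_hasFDerivAt_av {n : ℕ} {G : (Fin n → ℝ) × ℝ → ℂ} (hG : ContDiff ℝ 1 G)
    (y : Fin n → ℝ) : HasFDerivAt (div_av G)
      (∫ t in (0 : ℝ)..1, (fderiv ℝ G (y, t)).comp (ContinuousLinearMap.inl ℝ (Fin n → ℝ) ℝ)) y := by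
  have hfd : Continuous (fderiv ℝ G) := hG.continuous_fderiv one_ne_zero
  have hK : IsCompact (Metric.closedBall y 1 ×ˢ Icc (0 : ℝ) 1) :=
    (isCompact_closedBall y 1).prod isCompact_Icc
  have hF' : Continuous (fun p : (Fin n → ℝ) × ℝ =>
      (fderiv ℝ G p).comp (ContinuousLinearMap.inl ℝ (Fin n → ℝ) ℝ)) :=
    hfd.clm_comp continuous_const
  obtain ⟨C, hC⟩ := hK.exists_bound_of_continuousOn hF'.continuousOn
  unfold div_av
  refine intervalIntegral.hasFDerivAt_integral_of_dominated_of_fderiv_le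
    (F' := fun x t => (fderiv ℝ G (x, t)).comp (ContinuousLinearMap.inl ℝ (Fin n → ℝ) ℝ))
    (bound := fun _ => C) (Metric.closedBall_mem_nhds y one_pos) ?_ ?_ ?_ ?_ ?_ ?_
  · apply Filter.Eventually.of_forall
    intro x
    exact (hG.continuous.comp (Continuous.prodMk_right x)).aestronglyMeasurable
  · exact (hG.continuous.comp (Continuous.prodMk_right y)).intervalIntegrable 0 1
  · exact (hF'.comp (Continuous.prodMk_right y)).aestronglyMeasurable
  · apply Filter.Eventually.of_forall
    intro t ht x hx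
    rw [uIoc_of_le zero_le_one] at ht
    exact hC (x, t) ⟨hx, ht.1.le, ht.2⟩
  · exact intervalIntegrable_const
  · apply Filter.Eventually.of_forall
    intro t ht x hx
    have h1 : HasFDerivAt G (fderiv ℝ G (x, t)) (x, t) :=
      (hG.differentiable one_ne_zero (x, t)).hasFDerivAt
    have h2 : HasFDerivAt (fun x : Fin n → ℝ => (x, t))
      (ContinuousLinearMap.inl ℝ (Fin n → ℝ) ℝ) x := hasFDerivAt_prodMk_left x t
    exact h1.comp x h2

theorem div_contDiff_av {n : ℕ} {G : (Fin n → ℝ) × ℝ → ℂ} (hG : ContDiff ℝ 1 G) :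
    ContDiff ℝ 1 (div_av G) := by
  rw [contDiff_one_iff_fderiv]
  refine ⟨fun y => (div_hasFDerivAt_av hG y).differentiableAt, ?_⟩
  have h1 : fderiv ℝ (div_av G) = fun y =>
      ∫ t in (0 : ℝ)..1, (fderiv ℝ G (y, t)).comp (ContinuousLinearMap.inl ℝ (Fin n → ℝ) ℝ) := by
    funext y
    exact (div_hasFDerivAt_av hG y).fderiv
  rw [h1]
  apply intervalIntegral.continuous_parametric_intervalIntegral_of_continuous'
  have hfd : Continuous (fderiv ℝ G) := hG.continuous_fderiv one_ne_zero
  exact (hfd.comp continuous_id).clm_comp continuous_const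

theorem div_fderiv_av {n : ℕ} {G : (Fin n → ℝ) × ℝ → ℂ} (hG : ContDiff ℝ 1 G)
    (y v : Fin n → ℝ) :
    fderiv ℝ (div_av G) y v = ∫ t in (0 : ℝ)..1, fderiv ℝ G (y, t) (v, 0) := by
  rw [(div_hasFDerivAt_av hG y).fderiv]
  have hfd : Continuous (fderiv ℝ G) := hG.continuous_fderiv one_ne_zero
  rw [ContinuousLinearMap.intervalIntegral_apply]
  · rfl
  · apply Continuous.intervalIntegrable
    exact (hfd.comp (Continuous.prodMk_right y)).clm_comp continuous_const

theorem div_central {n : ℕ} {G : (Fin n → ℝ) × ℝ → ℂ} (hG : ContDiff ℝ 1 G)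
    (hp : ∀ y t, G (y, t + 1) = G (y, t)) (y : Fin n → ℝ) (s : ℝ) :
    ∫ t in (0 : ℝ)..1, fderiv ℝ G (y, t) (0, s) = 0 := by
  have hfd : Continuous (fderiv ℝ G) := hG.continuous_fderiv one_ne_zero
  have h1 : ∀ t ∈ uIcc (0 : ℝ) 1, HasDerivAt (fun t => G (y, t)) (fderiv ℝ G (y, t) (0, 1)) t := by
    intro t _
    have h2 : HasFDerivAt G (fderiv ℝ G (y, t)) (y, t) :=
      (hG.differentiable one_ne_zero (y, t)).hasFDerivAt
    have h3 : HasDerivAt (fun t : ℝ => (y, t)) (0, 1) t :=
      (hasDerivAt_const t y).prodMk (hasDerivAt_id t)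
    exact h2.comp_hasDerivAt t h3
  have hi : IntervalIntegrable (fun t => fderiv ℝ G (y, t) (0, 1)) volume 0 1 :=
    ((hfd.comp (Continuous.prodMk_right y)).clm_apply continuous_const).intervalIntegrable 0 1
  have h2 := intervalIntegral.integral_eq_sub_of_hasDerivAt h1 hi
  have h3 : G (y, 1) = G (y, 0) := by
    have := hp y 0
    rwa [zero_add] at this
  rw [h3, sub_self] at h2
  have h4 : ∀ t, fderiv ℝ G (y, t) (0, s) = s • fderiv ℝ G (y, t) (0, 1) := by
    intro t
    rw [← map_smul]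
    congr 1
    simp
  simp only [h4]
  rw [intervalIntegral.integral_smul, h2, smul_zero]

/-- Fubini on the cell -/
theorem div_fubini {n : ℕ} {F : (Fin n → ℝ) × ℝ → ℂ} (hF : Continuous F) :
    ∫ x in Icc (0 : (Fin n → ℝ) × ℝ) 1, F x
      = ∫ y in Icc (0 : Fin n → ℝ) 1, ∫ t in (0 : ℝ)..1, F (y, t) := by
  have h1 : Icc (0 : (Fin n → ℝ) × ℝ) 1 = Icc (0 : Fin n → ℝ) 1 ×ˢ Icc (0 : ℝ) 1 := by
    rw [Icc_prod_Icc]
    rfl
  rw [h1, Measure.volume_eq_prod, setIntegral_prod]
  · refine integral_congr_ae (Filter.Eventually.of_forall fun y => ?_)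
    simp only
    rw [intervalIntegral.integral_of_le zero_le_one, integral_Icc_eq_integral_Ioc]
  · rw [← Measure.volume_eq_prod]
    exact hF.continuousOn.integrableOn_compact (isCompact_Icc.prod isCompact_Icc)

/-- the derivative of a function on the cell along a field `(v, s y)` integrates to zero -/
theorem div_cell {n : ℕ} {G : (Fin n → ℝ) × ℝ → ℂ} (hG : ContDiff ℝ 1 G)
    (hp : ∀ y t, G (y, t + 1) = G (y, t))
    (hq : ∀ (i : Fin n) (y : Fin n → ℝ), ∃ r : ℝ, ∀ t, G (y + Pi.single i 1, t) = G (y, t + r))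
    (v : Fin n → ℝ) {s : (Fin n → ℝ) → ℝ} (hs : Continuous s) :
    ∫ x in Icc (0 : (Fin n → ℝ) × ℝ) 1, fderiv ℝ G x (v, s x.1) = 0 := by
  have hfd : Continuous (fderiv ℝ G) := hG.continuous_fderiv one_ne_zero
  rw [div_fubini (hfd.clm_apply (by fun_prop))]
  have h1 : ∀ y, ∫ t in (0 : ℝ)..1, fderiv ℝ G (y, t) (v, s y) = fderiv ℝ (div_av G) y v := by
    intro y
    rw [div_fderiv_av hG]
    have h2 : ∀ t, fderiv ℝ G (y, t) (v, s y)
        = fderiv ℝ G (y, t) (v, 0) + fderiv ℝ G (y, t) (0, s y) := by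
      intro t
      rw [← map_add]
      congr 1
      simp
    simp only [h2]
    rw [intervalIntegral.integral_add, div_central hG hp, add_zero]
    · exact ((hfd.comp (Continuous.prodMk_right y)).clm_apply
        continuous_const).intervalIntegrable 0 1
    · exact ((hfd.comp (Continuous.prodMk_right y)).clm_apply
        continuous_const).intervalIntegrable 0 1
  simp only [h1]
  apply div_int_deriv (div_contDiff_av hG)
  intro i y
  obtain ⟨r, hr⟩ := hq i y
  unfold div_av
  simp only [hr]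
  have h2 := intervalIntegral.integral_comp_add_right (fun t => G (y, t)) r (a := 0) (b := 1)
  rw [h2]
  have h3 : Function.Periodic (fun t => G (y, t)) 1 := fun t => hp y t
  have h4 := h3.intervalIntegral_add_eq (0 + r) 0
  rw [zero_add] at h4 ⊢
  rw [add_comm 1 r, h4]
  norm_num

/-! ### Coordinates on the horosphere -/

variable {m : ℕ}

/-- the linear map `x ↦ ∑ xᵢ βᵢ` -/
def div_L (β : Fin (2 * m) → E m) : (Fin (2 * m) → ℝ) →L[ℝ] E m :=
  ∑ i, (ContinuousLinearMap.proj i : (Fin (2 * m) → ℝ) →L[ℝ] ℝ).smulRight (β i)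

theorem div_L_apply (β : Fin (2 * m) → E m) (x : Fin (2 * m) → ℝ) :
    div_L β x = ∑ i, x i • β i := by
  unfold div_L
  rw [sum_apply]
  rfl

theorem div_cellpt (β : Fin (2 * m) → E m) (c : ℝ) (x : (Fin (2 * m) → ℝ) × ℝ) (u : ℝ) :
    cellpt β c x u = (⟨-(u + ‖div_L β x.1‖ ^ 2) / 2, c * x.2⟩, div_L β x.1) := by
  rw [div_L_apply]
  rfl

theorem div_cellpt' (β : Fin (2 * m) → E m) (c : ℝ) (x : (Fin (2 * m) → ℝ) × ℝ) (u : ℝ) :
    cellpt β c x u = (((-(u + ‖div_L β x.1‖ ^ 2) / 2 : ℝ) : ℂ) +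
      ((c * x.2 : ℝ) : ℂ) * Complex.I, div_L β x.1) := by
  rw [div_cellpt]
  refine Prod.ext ?_ rfl
  apply Complex.ext
  · simp only [Complex.add_re, Complex.ofReal_re, Complex.mul_re, Complex.I_re, Complex.I_im,
      Complex.ofReal_im]
    ring
  · simp only [Complex.add_im, Complex.ofReal_im, Complex.mul_im, Complex.I_re, Complex.I_im,
      Complex.ofReal_re]
    ring

theorem div_hgt_cellpt (β : Fin (2 * m) → E m) (c : ℝ) (x : (Fin (2 * m) → ℝ) × ℝ) (u : ℝ) :
    hgt (cellpt β c x u) = u := by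
  unfold hgt cellpt
  simp only
  ring

theorem div_cellpt_mem (β : Fin (2 * m) → E m) (c : ℝ) (x : (Fin (2 * m) → ℝ) × ℝ) {u : ℝ}
    (hu : 0 < u) : cellpt β c x u ∈ SD m := by
  change 0 < hgt (cellpt β c x u)
  rw [div_hgt_cellpt]
  exact hu

theorem div_contDiff_cellpt (β : Fin (2 * m) → E m) (c u : ℝ) :
    ContDiff ℝ 2 (fun x => cellpt β c x u) := by
  have hof : ContDiff ℝ 2 (fun x : ℝ => (x : ℂ)) := Complex.ofRealCLM.contDiff
  have hL : ContDiff ℝ 2 (fun x : (Fin (2 * m) → ℝ) × ℝ => div_L β x.1) :=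
    (div_L β).contDiff.comp contDiff_fst
  have h2 : ContDiff ℝ 2 (fun p : (Fin (2 * m) → ℝ) × ℝ => p.2) := contDiff_snd
  simp only [div_cellpt']
  refine ContDiff.prodMk ?_ hL
  apply ContDiff.add
  · apply hof.comp
    exact ((contDiff_const.add (hL.norm_sq ℂ)).neg).div_const 2
  · apply ContDiff.mul _ contDiff_const
    apply hof.comp
    exact contDiff_const.mul h2

theorem div_fderiv_cellpt (β : Fin (2 * m) → E m) (c u : ℝ) (p v : (Fin (2 * m) → ℝ) × ℝ) :
    fderiv ℝ (fun x => cellpt β c x u) p v =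
      (((-(inner ℂ (div_L β p.1) (div_L β v.1)).re : ℝ) : ℂ) +
        ((c * v.2 : ℝ) : ℂ) * Complex.I, div_L β v.1) := by
  have hd : DifferentiableAt ℝ (fun x => cellpt β c x u) p :=
    (div_contDiff_cellpt β c u).differentiable (by norm_num) p
  have h1 : HasDerivAt (fun s : ℝ => p + s • v) v 0 := by
    have := ((hasDerivAt_id (0 : ℝ)).smul_const v).const_add p
    simpa using this
  have h2 : HasDerivAt (fun s : ℝ => cellpt β c (p + s • v) u)
      (fderiv ℝ (fun x => cellpt β c x u) p v) 0 := by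
    have h3 : HasFDerivAt (fun x => cellpt β c x u) (fderiv ℝ (fun x => cellpt β c x u) p)
        (p + (0 : ℝ) • v) := by
      rw [zero_smul, add_zero]
      exact hd.hasFDerivAt
    exact h3.comp_hasDerivAt (0 : ℝ) h1
  have e1 : ∀ s : ℝ, div_L β (p + s • v).1 = div_L β p.1 + s • div_L β v.1 := by
    intro s
    change div_L β (p.1 + s • v.1) = _
    rw [map_add, map_smul]
  have e2 : ∀ s : ℝ, (p + s • v).2 = p.2 + s * v.2 := fun s => rfl
  have e3 : ∀ s : ℝ, ‖div_L β p.1 + s • div_L β v.1‖ ^ 2 = ‖div_L β p.1‖ ^ 2 +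
      2 * (s * (inner ℂ (div_L β p.1) (div_L β v.1)).re) + s ^ 2 * ‖div_L β v.1‖ ^ 2 := by
    intro s
    rw [norm_add_sq_c]
    have h3 : (s • div_L β v.1 : E m) = (s : ℂ) • div_L β v.1 := rfl
    rw [h3, inner_smul_right, norm_smul, Complex.re_ofReal_mul, mul_pow]
    simp
  have h4 : HasDerivAt (fun s : ℝ => cellpt β c (p + s • v) u)
      (((-(inner ℂ (div_L β p.1) (div_L β v.1)).re : ℝ) : ℂ) +
        ((c * v.2 : ℝ) : ℂ) * Complex.I, div_L β v.1) 0 := by
    simp only [div_cellpt', e1, e2, e3]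
    have d0 : HasDerivAt (fun s : ℝ => s) 1 0 := hasDerivAt_id 0
    apply HasDerivAt.prodMk
    · apply HasDerivAt.add
      · have h5 : HasDerivAt (fun s : ℝ => -(u + (‖div_L β p.1‖ ^ 2 +
            2 * (s * (inner ℂ (div_L β p.1) (div_L β v.1)).re) + s ^ 2 * ‖div_L β v.1‖ ^ 2)) / 2)
            (-(inner ℂ (div_L β p.1) (div_L β v.1)).re) 0 := by
          have h6 := ((((((d0.mul_const (inner ℂ (div_L β p.1) (div_L β v.1)).re).const_mul
            2).const_add (‖div_L β p.1‖ ^ 2)).add ((d0.pow 2).mul_const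
              (‖div_L β v.1‖ ^ 2))).const_add u).neg).div_const 2
          refine h6.congr_deriv ?_
          simp
          ring
        exact h5.ofReal_comp
      · apply HasDerivAt.mul_const
        have h5 : HasDerivAt (fun s : ℝ => c * (p.2 + s * v.2)) (c * v.2) 0 := by
          have := ((d0.mul_const v.2).const_add p.2).const_mul c
          simpa using this
        exact h5.ofReal_comp
    · have := (d0.smul_const (div_L β v.1)).const_add (div_L β p.1)
      simpa using this
  exact h2.unique h4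

theorem div_finrank : Module.finrank ℝ (E m) = 2 * m := by
  have h := Module.finrank_mul_finrank ℝ ℂ (E m)
  rw [Complex.finrank_real_complex, finrank_euclideanSpace_fin] at h
  exact h.symm

/-- every vector is a real combination of the basis -/
theorem div_coord {β : Fin (2 * m) → E m} (hβ : LinearIndependent ℝ β) (v : E m) :
    ∃ α : Fin (2 * m) → ℝ, div_L β α = v := by
  have h1 : Submodule.span ℝ (Set.range β) = ⊤ := by
    apply hβ.span_eq_top_of_card_eq_finrank'
    rw [Fintype.card_fin, div_finrank]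
  have h2 : v ∈ Submodule.span ℝ (Set.range β) := by
    rw [h1]
    trivial
  rw [Submodule.mem_span_range_iff_exists_fun] at h2
  obtain ⟨α, hα⟩ := h2
  exact ⟨α, by rw [div_L_apply]; exact hα⟩

theorem div_inner_ek (x : E m) (k : Fin m) : inner ℂ x (ek k) = conj (x k) := by
  unfold ek
  rw [EuclideanSpace.inner_single_right]
  simp

/-! ### Functions on the horosphere -/

theorem div_contDiff_lf (β : Fin (2 * m) → E m) (c : ℝ) {u : ℝ} (hu : 0 < u) {φ : Pt m → ℂ}
    (hφ : ContDiffOn ℝ 1 φ (SD m)) : ContDiff ℝ 1 (fun x => φ (cellpt β c x u)) :=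
  hφ.comp_contDiff ((div_contDiff_cellpt β c u).of_le (by norm_num))
    fun x => div_cellpt_mem β c x hu

theorem div_fderiv_lf (β : Fin (2 * m) → E m) (c : ℝ) {u : ℝ} (hu : 0 < u) {φ : Pt m → ℂ}
    (hφ : ContDiffOn ℝ 1 φ (SD m)) (p v : (Fin (2 * m) → ℝ) × ℝ) :
    fderiv ℝ (fun x => φ (cellpt β c x u)) p v = fderiv ℝ φ (cellpt β c p u)
      (((-(inner ℂ (div_L β p.1) (div_L β v.1)).re : ℝ) : ℂ) +
        ((c * v.2 : ℝ) : ℂ) * Complex.I, div_L β v.1) := by
  have h1 : DifferentiableAt ℝ φ (cellpt β c p u) :=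
    (hφ.contDiffAt (isOpen_SD.mem_nhds (div_cellpt_mem β c p hu))).differentiableAt one_ne_zero
  have h2 : DifferentiableAt ℝ (fun x => cellpt β c x u) p :=
    (div_contDiff_cellpt β c u).differentiable (by norm_num) p
  have h3 := (h1.hasFDerivAt.comp p h2.hasFDerivAt).fderiv
  have h4 : fderiv ℝ (fun x => φ (cellpt β c x u)) p = _ := h3
  rw [h4]
  change fderiv ℝ φ (cellpt β c p u) (fderiv ℝ (fun x => cellpt β c x u) p v) = _
  rw [div_fderiv_cellpt]

/-- periodicity in the central direction -/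
theorem div_per_t {N : ℂ → E m → Prop} {β : Fin (2 * m) → E m} {c : ℝ} (hN : Cusp N β c)
    {u : ℝ} (hu : 0 < u) {φ : Pt m → ℂ} (hi : Per N φ) (y : Fin (2 * m) → ℝ) (t : ℝ) :
    φ (cellpt β c (y, t + 1) u) = φ (cellpt β c (y, t) u) := by
  have h1 : N ((c : ℂ) * Complex.I) 0 := (hN.cen _).2 ⟨1, by simp⟩
  have h2 := hi _ _ h1 _ (div_cellpt_mem β c (y, t) hu)
  rw [← h2]
  congr 1
  rw [act_T, div_cellpt', div_cellpt']
  refine Prod.ext ?_ ?_
  · simp only [inner_zero_left]
    push_cast
    ring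
  · simp

/-- translation by a basis vector -/
theorem div_per_i {N : ℂ → E m → Prop} {β : Fin (2 * m) → E m} {c : ℝ} (hN : Cusp N β c)
    {u : ℝ} (hu : 0 < u) {φ : Pt m → ℂ} (hi : Per N φ) (i : Fin (2 * m))
    (y : Fin (2 * m) → ℝ) :
    ∃ r : ℝ, ∀ t, φ (cellpt β c (y + Pi.single i 1, t) u) = φ (cellpt β c (y, t + r) u) := by
  obtain ⟨a, ha⟩ : ∃ a, N a (β i) := by
    rw [hN.lat]
    refine ⟨Pi.single i 1, ?_⟩
    rw [Finset.sum_eq_single i]
    · simp
    · intro j _ hj
      simp [Pi.single_eq_of_ne hj]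
    · intro h
      exact absurd (Finset.mem_univ i) h
  have hn := hN.norm _ _ ha
  have hL : div_L β (y + Pi.single i 1) = div_L β y + β i := by
    rw [map_add]
    congr 1
    rw [div_L_apply, Finset.sum_eq_single i]
    · simp
    · intro j _ hj
      simp [Pi.single_eq_of_ne hj]
    · intro h
      exact absurd (Finset.mem_univ i) h
  have hc : c ≠ 0 := hN.cpos.ne'
  refine ⟨-(a.im - (inner ℂ (β i) (div_L β y)).im) / c, fun t => ?_⟩
  have h2 := hi _ _ ha _ (div_cellpt_mem β c
    (y, t + -(a.im - (inner ℂ (β i) (div_L β y)).im) / c) hu)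
  rw [← h2]
  congr 1
  rw [act_T, div_cellpt', div_cellpt', hL, norm_add_sq_c]
  have h3 : (inner ℂ (div_L β y) (β i)).re = (inner ℂ (β i) (div_L β y)).re := by
    rw [← inner_conj (β i) (div_L β y), Complex.conj_re]
  refine Prod.ext ?_ rfl
  apply Complex.ext
  · simp only [Complex.add_re, Complex.sub_re, Complex.ofReal_re, Complex.mul_re, Complex.I_re,
      Complex.ofReal_im, Complex.I_im, h3]
    linear_combination (-1 / 2 : ℝ) * hn
  · simp only [Complex.add_im, Complex.sub_im, Complex.ofReal_im, Complex.mul_im, Complex.I_re,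
      Complex.ofReal_re, Complex.I_im]
    field_simp
    ring

/-- the field `(v, i v)` type derivatives integrate to zero -/
theorem div_field {N : ℂ → E m → Prop} {β : Fin (2 * m) → E m} {c : ℝ} (hN : Cusp N β c)
    {u : ℝ} (hu : 0 < u) {φ : Pt m → ℂ} (hφ : ContDiffOn ℝ 1 φ (SD m)) (hi : Per N φ) (w : E m) :
    ∫ x in Icc (0 : (Fin (2 * m) → ℝ) × ℝ) 1,
      fderiv ℝ φ (cellpt β c x u) (-(inner ℂ (cellpt β c x u).2 w), w) = 0 := by
  obtain ⟨α, hα⟩ := div_coord hN.li w
  have hc : c ≠ 0 := hN.cpos.ne'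
  have hs : Continuous (fun y : Fin (2 * m) → ℝ => -(inner ℂ (div_L β y) w).im / c) := by
    have h1 : Continuous (fun y : Fin (2 * m) → ℝ => inner ℂ (div_L β y) w) :=
      (div_L β).continuous.inner continuous_const
    exact ((Complex.continuous_im.comp h1).neg).div_const c
  have key := div_cell (div_contDiff_lf β c hu hφ) (div_per_t hN hu hi) (div_per_i hN hu hi) α hs
  rw [← key]
  refine integral_congr_ae (Filter.Eventually.of_forall fun x => ?_)
  simp only
  rw [div_fderiv_lf β c hu hφ]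
  congr 1
  rw [hα]
  refine Prod.ext ?_ rfl
  have h2 : (cellpt β c x u).2 = div_L β x.1 := by rw [div_cellpt]
  rw [h2]
  apply Complex.ext
  · simp
  · simp
    field_simp

theorem st_DIV : ST_DIV := by
  intro m N β c hN φ hφ hi u hu k
  have h1 := div_field hN hu hφ hi (ek k)
  have h2 := div_field hN hu hφ hi (Complex.I • ek k)
  refine ⟨?_, ?_⟩
  · rw [← h1]
    refine integral_congr_ae (Filter.Eventually.of_forall fun x => ?_)
    simp only [XX]
    rw [div_inner_ek]
  · rw [← h2]
    refine integral_congr_ae (Filter.Eventually.of_forall fun x => ?_)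
    simp only [YY]
    rw [inner_smul_right, div_inner_ek]

end

end Pool.Agent.Helper19.Un
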