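import Pool.Agent.Helper74.Un.DIV

set_option autoImplicit false

/-!
# The lowest Landau level bound
-/

namespace Pool.Agent.Helper19.Un

open MeasureTheory Topology Set
open scoped ComplexConjugate

noncomputable section

variable {m : ℕ}

/-! ### Invariance -/

theorem land_act_mem {a : ℂ} {b : E m} (h : 2 * a.re + ‖b‖ ^ 2 = 0) {p : Pt m}
    (hp : p ∈ SD m) : act (T a b) p ∈ SD m := act_mem (T_mem_UG h) hp

/-- the `k`-th coordinate, as a real linear map -/
def land_co (k : Fin m) : E m →L[ℝ] ℂ :=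
  (EuclideanSpace.proj k : E m →L[ℂ] ℂ).restrictScalars ℝ

theorem land_co_apply (k : Fin m) (x : E m) : land_co k x = x k := rfl

theorem land_hasFDerivAt_act (a : ℂ) (b : E m) (p : Pt m) : HasFDerivAt (act (T a b))
    ((ContinuousLinearMap.fst ℝ ℂ (E m) -
        (((innerSL ℂ b).restrictScalars ℝ).comp (ContinuousLinearMap.snd ℝ ℂ (E m)))).prod
      (ContinuousLinearMap.snd ℝ ℂ (E m))) p := by
  have h1 : act (T a b) = fun p : Pt m => (p.1 - inner ℂ b p.2 + a, p.2 + b) := by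
    funext p
    exact act_T a b p
  rw [h1]
  apply HasFDerivAt.prodMk
  · refine HasFDerivAt.add_const a (HasFDerivAt.sub hasFDerivAt_fst ?_)
    exact ((innerSL ℂ b).restrictScalars ℝ).hasFDerivAt.comp p hasFDerivAt_snd
  · exact hasFDerivAt_snd.add_const b

theorem land_fderiv_inv {N : ℂ → E m → Prop} {β : Fin (2 * m) → E m} {c : ℝ} (hN : Cusp N β c)
    {ψ : Pt m → ℂ} (hψ : ContDiffOn ℝ 1 ψ (SD m)) (hi : Per N ψ) {a : ℂ} {b : E m}
    (hab : N a b) {p : Pt m} (hp : p ∈ SD m) (v : Pt m) :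
    fderiv ℝ ψ (act (T a b) p) (v.1 - inner ℂ b v.2, v.2) = fderiv ℝ ψ p v := by
  have h1 : (fun q => ψ (act (T a b) q)) =ᶠ[𝓝 p] ψ := by
    filter_upwards [isOpen_SD.mem_nhds hp] with q hq
    exact hi a b hab q hq
  have h2 : HasFDerivAt ψ (fderiv ℝ ψ (act (T a b) p)) (act (T a b) p) :=
    ((hψ.contDiffAt (isOpen_SD.mem_nhds (land_act_mem (hN.norm a b hab) hp))).differentiableAt
      (by norm_num)).hasFDerivAt
  have h3 := h2.comp p (land_hasFDerivAt_act a b p)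
  rw [← h1.fderiv_eq]
  have h4 : fderiv ℝ (fun q => ψ (act (T a b) q)) p = _ := h3.fderiv
  rw [h4]
  rfl

theorem land_inner_ek (b : E m) (k : Fin m) : inner ℂ b (ek k) = conj (b k) := div_inner_ek b k

theorem land_per_xx {N : ℂ → E m → Prop} {β : Fin (2 * m) → E m} {c : ℝ} (hN : Cusp N β c)
    {ψ : Pt m → ℂ} (hψ : ContDiffOn ℝ 1 ψ (SD m)) (hi : Per N ψ) (k : Fin m) :
    Per N (XX k ψ) := by
  intro a b hab p hp
  unfold XX
  rw [← land_fderiv_inv hN hψ hi hab hp (-conj (p.2 k), ek k), act_T]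
  congr 1
  refine Prod.ext ?_ rfl
  simp only [land_inner_ek, PiLp.add_apply, map_add]
  ring

theorem land_per_yy {N : ℂ → E m → Prop} {β : Fin (2 * m) → E m} {c : ℝ} (hN : Cusp N β c)
    {ψ : Pt m → ℂ} (hψ : ContDiffOn ℝ 1 ψ (SD m)) (hi : Per N ψ) (k : Fin m) :
    Per N (YY k ψ) := by
  intro a b hab p hp
  unfold YY
  rw [← land_fderiv_inv hN hψ hi hab hp (-(Complex.I * conj (p.2 k)), Complex.I • ek k), act_T]
  congr 1
  refine Prod.ext ?_ rfl
  simp only [inner_smul_right, land_inner_ek, PiLp.add_apply, map_add]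
  ring

/-! ### Smoothness -/

theorem land_contDiff_conj (k : Fin m) : ContDiff ℝ 1 (fun p : Pt m => conj (p.2 k)) := by
  have h1 : ContDiff ℝ 1 (fun p : Pt m => land_co k p.2) :=
    (land_co k).contDiff.comp contDiff_snd
  exact (Complex.conjCLE : ℂ →L[ℝ] ℂ).contDiff.comp h1

theorem land_contDiff_fieldX (k : Fin m) :
    ContDiff ℝ 1 (fun p : Pt m => ((-conj (p.2 k), ek k) : Pt m)) :=
  ContDiff.prodMk (land_contDiff_conj k).neg contDiff_const

theorem land_contDiff_fieldY (k : Fin m) :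
    ContDiff ℝ 1 (fun p : Pt m => ((-(Complex.I * conj (p.2 k)), Complex.I • ek k) : Pt m)) :=
  ContDiff.prodMk (contDiff_const.mul (land_contDiff_conj k)).neg contDiff_const

theorem land_c1_xx {φ : Pt m → ℂ} (hφ : ContDiffOn ℝ 2 φ (SD m)) (k : Fin m) :
    ContDiffOn ℝ 1 (XX k φ) (SD m) :=
  (hφ.fderiv_of_isOpen isOpen_SD (by norm_num)).clm_apply (land_contDiff_fieldX k).contDiffOn

theorem land_c1_yy {φ : Pt m → ℂ} (hφ : ContDiffOn ℝ 2 φ (SD m)) (k : Fin m) :
    ContDiffOn ℝ 1 (YY k φ) (SD m) :=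
  (hφ.fderiv_of_isOpen isOpen_SD (by norm_num)).clm_apply (land_contDiff_fieldY k).contDiffOn

theorem land_c0_xx {φ : Pt m → ℂ} (hφ : ContDiffOn ℝ 1 φ (SD m)) (k : Fin m) :
    ContinuousOn (XX k φ) (SD m) :=
  (hφ.continuousOn_fderiv_of_isOpen isOpen_SD le_rfl).clm_apply
    (land_contDiff_fieldX k).continuous.continuousOn

theorem land_c0_yy {φ : Pt m → ℂ} (hφ : ContDiffOn ℝ 1 φ (SD m)) (k : Fin m) :
    ContinuousOn (YY k φ) (SD m) :=
  (hφ.continuousOn_fderiv_of_isOpen isOpen_SD le_rfl).clm_apply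
    (land_contDiff_fieldY k).continuous.continuousOn

theorem land_continuous_lf (β : Fin (2 * m) → E m) (c : ℝ) {u : ℝ} (hu : 0 < u) {φ : Pt m → ℂ}
    (hφ : ContinuousOn φ (SD m)) : Continuous (fun x => φ (cellpt β c x u)) :=
  hφ.comp_continuous (div_contDiff_cellpt β c u).continuous fun x => div_cellpt_mem β c x hu

theorem land_ek_self (k : Fin m) : (ek k : E m) k = 1 := by
  unfold ek
  simp

/-- the commutator of the horizontal fields -/
theorem land_commutator {φ : Pt m → ℂ} (hφ : ContDiffOn ℝ 2 φ (SD m)) {p : Pt m}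
    (hp : p ∈ SD m) (k : Fin m) :
    XX k (YY k φ) p - YY k (XX k φ) p = -2 * pd (Complex.I, 0) φ p := by
  have hnh := isOpen_SD.mem_nhds hp
  have h1 : ContDiffAt ℝ 2 φ p := hφ.contDiffAt hnh
  have h2 : HasFDerivAt (fderiv ℝ φ) (fderiv ℝ (fderiv ℝ φ) p) p := by
    have h3 : ContDiffAt ℝ 1 (fderiv ℝ φ) p := h1.fderiv_right (by norm_num)
    exact (h3.differentiableAt (by norm_num)).hasFDerivAt
  have hsym : ∀ v w : Pt m, fderiv ℝ (fderiv ℝ φ) p v w = fderiv ℝ (fderiv ℝ φ) p w v := by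
    intro v w
    exact (h1.isSymmSndFDerivAt (by simp)) v w
  have hconj : HasFDerivAt (fun q : Pt m => conj (q.2 k))
      ((Complex.conjCLE : ℂ →L[ℝ] ℂ).comp ((land_co k).comp
        (ContinuousLinearMap.snd ℝ ℂ (E m)))) p := by
    have h3 : HasFDerivAt (fun q : Pt m => land_co k q.2)
        ((land_co k).comp (ContinuousLinearMap.snd ℝ ℂ (E m))) p :=
      (land_co k).hasFDerivAt.comp p hasFDerivAt_snd
    exact (Complex.conjCLE : ℂ →L[ℝ] ℂ).hasFDerivAt.comp p h3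
  have hX : HasFDerivAt (fun q : Pt m => ((-conj (q.2 k), ek k) : Pt m))
      ((-((Complex.conjCLE : ℂ →L[ℝ] ℂ).comp ((land_co k).comp
        (ContinuousLinearMap.snd ℝ ℂ (E m))))).prod 0) p :=
    hconj.neg.prodMk (hasFDerivAt_const _ _)
  have hY : HasFDerivAt
      (fun q : Pt m => ((-(Complex.I * conj (q.2 k)), Complex.I • ek k) : Pt m))
      ((-(Complex.I • ((Complex.conjCLE : ℂ →L[ℝ] ℂ).comp ((land_co k).comp
        (ContinuousLinearMap.snd ℝ ℂ (E m)))))).prod 0) p :=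
    (hconj.const_mul Complex.I).neg.prodMk (hasFDerivAt_const _ _)
  have e1 : XX k (YY k φ) p = fderiv ℝ (fderiv ℝ φ) p (-conj (p.2 k), ek k)
      (-(Complex.I * conj (p.2 k)), Complex.I • ek k) + fderiv ℝ φ p (-Complex.I, 0) := by
    have h4 : fderiv ℝ (YY k φ) p = _ := (h2.clm_apply hY).fderiv
    unfold XX
    rw [h4]
    simp [land_co_apply, land_ek_self]
    rw [add_comm]
  have e2 : YY k (XX k φ) p = fderiv ℝ (fderiv ℝ φ) p
      (-(Complex.I * conj (p.2 k)), Complex.I • ek k)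
      (-conj (p.2 k), ek k) + fderiv ℝ φ p (Complex.I, 0) := by
    have h4 : fderiv ℝ (XX k φ) p = _ := (h2.clm_apply hX).fderiv
    unfold YY
    rw [h4]
    simp [land_co_apply, land_ek_self]
    rw [add_comm]
  have e3 : fderiv ℝ φ p (-Complex.I, 0) = -fderiv ℝ φ p (Complex.I, 0) := by
    rw [← map_neg]
    congr 1
    apply Prod.ext
    · rfl
    · simp
  rw [e1, e2, e3, hsym (-conj (p.2 k), ek k) (-(Complex.I * conj (p.2 k)), Complex.I • ek k)]
  unfold pd
  ring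

/-! ### Products -/

theorem land_conj_contDiffOn {φ : Pt m → ℂ} (hφ : ContDiffOn ℝ 1 φ (SD m)) :
    ContDiffOn ℝ 1 (fun p => conj (φ p)) (SD m) :=
  (Complex.conjCLE : ℂ →L[ℝ] ℂ).contDiff.comp_contDiffOn hφ

theorem land_fderiv_prod {φ ψ : Pt m → ℂ} (hφ : ContDiffOn ℝ 1 φ (SD m))
    (hψ : ContDiffOn ℝ 1 ψ (SD m)) {p : Pt m} (hp : p ∈ SD m) (v : Pt m) :
    fderiv ℝ (fun q => conj (φ q) * ψ q) p v
      = conj (fderiv ℝ φ p v) * ψ p + conj (φ p) * fderiv ℝ ψ p v := by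
  have hnh := isOpen_SD.mem_nhds hp
  have h1 : HasFDerivAt φ (fderiv ℝ φ p) p :=
    ((hφ.contDiffAt hnh).differentiableAt one_ne_zero).hasFDerivAt
  have h2 : HasFDerivAt ψ (fderiv ℝ ψ p) p :=
    ((hψ.contDiffAt hnh).differentiableAt one_ne_zero).hasFDerivAt
  have h3 : HasFDerivAt (fun q => conj (φ q))
      ((Complex.conjCLE : ℂ →L[ℝ] ℂ).comp (fderiv ℝ φ p)) p :=
    (Complex.conjCLE : ℂ →L[ℝ] ℂ).hasFDerivAt.comp p h1
  have h4 : fderiv ℝ (fun q => conj (φ q) * ψ q) p = _ := (h3.mul h2).fderiv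
  rw [h4]
  simp
  ring

theorem land_parts_x (hdiv : ST_DIV) {N : ℂ → E m → Prop} {β : Fin (2 * m) → E m} {c : ℝ}
    (hN : Cusp N β c) {φ ψ : Pt m → ℂ} (hφ : ContDiffOn ℝ 1 φ (SD m)) (hφi : Per N φ)
    (hψ : ContDiffOn ℝ 1 ψ (SD m)) (hψi : Per N ψ) {u : ℝ} (hu : 0 < u) (k : Fin m) :
    ∫ x in Icc (0 : (Fin (2 * m) → ℝ) × ℝ) 1, (conj (XX k φ (cellpt β c x u)) *
      ψ (cellpt β c x u) + conj (φ (cellpt β c x u)) * XX k ψ (cellpt β c x u)) = 0 := by
  have h := (hdiv m N β c hN (fun q => conj (φ q) * ψ q)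
    ((land_conj_contDiffOn hφ).mul hψ) (by
      intro a b hab p hp
      simp only
      rw [hφi a b hab p hp, hψi a b hab p hp]) u hu k).1
  rw [← h]
  refine integral_congr_ae (Filter.Eventually.of_forall fun x => ?_)
  simp only
  have := land_fderiv_prod hφ hψ (div_cellpt_mem β c x hu)
    (-conj ((cellpt β c x u).2 k), ek k)
  exact this.symm

theorem land_parts_y (hdiv : ST_DIV) {N : ℂ → E m → Prop} {β : Fin (2 * m) → E m} {c : ℝ}
    (hN : Cusp N β c) {φ ψ : Pt m → ℂ} (hφ : ContDiffOn ℝ 1 φ (SD m)) (hφi : Per N φ)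
    (hψ : ContDiffOn ℝ 1 ψ (SD m)) (hψi : Per N ψ) {u : ℝ} (hu : 0 < u) (k : Fin m) :
    ∫ x in Icc (0 : (Fin (2 * m) → ℝ) × ℝ) 1, (conj (YY k φ (cellpt β c x u)) *
      ψ (cellpt β c x u) + conj (φ (cellpt β c x u)) * YY k ψ (cellpt β c x u)) = 0 := by
  have h := (hdiv m N β c hN (fun q => conj (φ q) * ψ q)
    ((land_conj_contDiffOn hφ).mul hψ) (by
      intro a b hab p hp
      simp only
      rw [hφi a b hab p hp, hψi a b hab p hp]) u hu k).2
  rw [← h]
  refine integral_congr_ae (Filter.Eventually.of_forall fun x => ?_)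
  simp only
  have := land_fderiv_prod hφ hψ (div_cellpt_mem β c x hu)
    (-(Complex.I * conj ((cellpt β c x u).2 k)), Complex.I • ek k)
  exact this.symm

/-- Landau levels -/
theorem land_real (hdiv : ST_DIV) {N : ℂ → E m → Prop} {β : Fin (2 * m) → E m} {c : ℝ}
    (hN : Cusp N β c) {φ : Pt m → ℂ} (hφ : ContDiffOn ℝ 2 φ (SD m)) (hi : Per N φ) (n : ℤ)
    (hz : ∀ p ∈ SD m, pd (Complex.I, 0) φ p
      = ((2 * Real.pi * n / c : ℝ) : ℂ) * Complex.I * φ p) {u : ℝ} (hu : 0 < u) (k : Fin m) :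
    4 * Real.pi * |(n : ℝ)| / c *
        ∫ x in Icc (0 : (Fin (2 * m) → ℝ) × ℝ) 1, ‖φ (cellpt β c x u)‖ ^ 2
      ≤ ∫ x in Icc (0 : (Fin (2 * m) → ℝ) × ℝ) 1,
        (‖XX k φ (cellpt β c x u)‖ ^ 2 + ‖YY k φ (cellpt β c x u)‖ ^ 2) := by
  have hφ1 : ContDiffOn ℝ 1 φ (SD m) := hφ.of_le (by norm_num)
  have px := land_parts_x hdiv hN hφ1 hi (land_c1_yy hφ k) (land_per_yy hN hφ1 hi k) hu k
  have py := land_parts_y hdiv hN hφ1 hi (land_c1_xx hφ k) (land_per_xx hN hφ1 hi k) hu k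
  have cφ := land_continuous_lf β c hu hφ1.continuousOn
  have cX := land_continuous_lf β c hu (land_c0_xx hφ1 k)
  have cY := land_continuous_lf β c hu (land_c0_yy hφ1 k)
  have cXY := land_continuous_lf β c hu (land_c0_xx (land_c1_yy hφ k) k)
  have cYX := land_continuous_lf β c hu (land_c0_yy (land_c1_xx hφ k) k)
  set f := fun x : (Fin (2 * m) → ℝ) × ℝ => φ (cellpt β c x u) with hf
  set X := fun x : (Fin (2 * m) → ℝ) × ℝ => XX k φ (cellpt β c x u) with hX
  set Y := fun x : (Fin (2 * m) → ℝ) × ℝ => YY k φ (cellpt β c x u) with hY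
  set XY := fun x : (Fin (2 * m) → ℝ) × ℝ => XX k (YY k φ) (cellpt β c x u) with hXY
  set YX := fun x : (Fin (2 * m) → ℝ) × ℝ => YY k (XX k φ) (cellpt β c x u) with hYX
  have hint : ∀ {G : (Fin (2 * m) → ℝ) × ℝ → ℂ}, Continuous G →
      IntegrableOn G (Icc (0 : (Fin (2 * m) → ℝ) × ℝ) 1) volume :=
    fun hG => hG.continuousOn.integrableOn_compact isCompact_Icc
  have hint' : ∀ {G : (Fin (2 * m) → ℝ) × ℝ → ℝ}, Continuous G →
      IntegrableOn G (Icc (0 : (Fin (2 * m) → ℝ) × ℝ) 1) volume :=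
    fun hG => hG.continuousOn.integrableOn_compact isCompact_Icc
  have i1 : IntegrableOn (fun x => conj (X x) * Y x + conj (f x) * XY x)
      (Icc (0 : (Fin (2 * m) → ℝ) × ℝ) 1) volume := by
    apply hint
    fun_prop
  have i2 : IntegrableOn (fun x => conj (Y x) * X x + conj (f x) * YX x)
      (Icc (0 : (Fin (2 * m) → ℝ) × ℝ) 1) volume := by
    apply hint
    fun_prop
  set κ : ℂ := ((2 * Real.pi * n / c : ℝ) : ℂ) * Complex.I with hκ
  have hcomm : ∀ x, XY x - YX x = -2 * (κ * f x) := by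
    intro x
    have h1 := land_commutator hφ (div_cellpt_mem β c x hu) k
    rw [hz _ (div_cellpt_mem β c x hu)] at h1
    exact h1
  have h1 : ∫ x in Icc (0 : (Fin (2 * m) → ℝ) × ℝ) 1, (conj (X x) * Y x - conj (Y x) * X x) =
      (2 * κ) * ((∫ x in Icc (0 : (Fin (2 * m) → ℝ) × ℝ) 1, ‖f x‖ ^ 2 : ℝ) : ℂ) := by
    have h2 := integral_sub i1 i2
    rw [px, py, sub_zero] at h2
    have h3 : (fun x => (conj (X x) * Y x + conj (f x) * XY x) -
        (conj (Y x) * X x + conj (f x) * YX x)) = fun x =>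
        (conj (X x) * Y x - conj (Y x) * X x) - (2 * κ) * ((‖f x‖ ^ 2 : ℝ) : ℂ) := by
      funext x
      have h4 : ((‖f x‖ ^ 2 : ℝ) : ℂ) = conj (f x) * f x := by
        rw [Complex.conj_mul']
        push_cast
        rfl
      rw [h4]
      linear_combination (conj (f x)) * hcomm x
    rw [h3] at h2
    have i3 : IntegrableOn (fun x => conj (X x) * Y x - conj (Y x) * X x)
        (Icc (0 : (Fin (2 * m) → ℝ) × ℝ) 1) volume := by
      apply hint
      fun_prop
    have i4 : IntegrableOn (fun x => (2 * κ) * ((‖f x‖ ^ 2 : ℝ) : ℂ))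
        (Icc (0 : (Fin (2 * m) → ℝ) × ℝ) 1) volume := by
      apply hint
      fun_prop
    rw [integral_sub i3 i4, integral_const_mul, integral_complex_ofReal, sub_eq_zero] at h2
    exact h2
  have h5 : ‖∫ x in Icc (0 : (Fin (2 * m) → ℝ) × ℝ) 1, (conj (X x) * Y x - conj (Y x) * X x)‖ ≤
      ∫ x in Icc (0 : (Fin (2 * m) → ℝ) × ℝ) 1, (‖X x‖ ^ 2 + ‖Y x‖ ^ 2) := by
    apply norm_integral_le_of_norm_le
    · apply hint'
      fun_prop
    · apply Filter.Eventually.of_forall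
      intro x
      refine (norm_sub_le _ _).trans ?_
      rw [norm_mul, norm_mul, Complex.norm_conj, Complex.norm_conj]
      nlinarith [sq_nonneg (‖X x‖ - ‖Y x‖)]
  have hκn : ‖κ‖ = 2 * Real.pi * |(n : ℝ)| / c := by
    rw [hκ, norm_mul, Complex.norm_I, mul_one, Complex.norm_real, Real.norm_eq_abs, abs_div,
      abs_mul, abs_of_pos (by positivity : (0 : ℝ) < 2 * Real.pi), abs_of_pos hN.cpos]
  rw [h1, norm_mul, norm_mul, hκn, Complex.norm_real,
    Real.norm_eq_abs, abs_of_nonneg (integral_nonneg fun y => by positivity)] at h5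
  have h6 : ‖(2 : ℂ)‖ = 2 := by norm_num
  rw [h6] at h5
  refine le_trans (le_of_eq ?_) h5
  ring

theorem land_cellInt (β : Fin (2 * m) → E m) (c : ℝ) {u : ℝ} {F : Pt m → ℝ}
    (hF : Continuous (fun x => F (cellpt β c x u))) (h0 : ∀ p, 0 ≤ F p) :
    cellInt β c (fun p => ENNReal.ofReal (F p)) u
      = ENNReal.ofReal (∫ x in Icc (0 : (Fin (2 * m) → ℝ) × ℝ) 1, F (cellpt β c x u)) := by
  unfold cellInt
  rw [ofReal_integral_eq_lintegral_ofReal]
  · exact hF.continuousOn.integrableOn_compact isCompact_Icc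
  · exact Filter.Eventually.of_forall fun x => h0 _

theorem st_LAND (hdiv : ST_DIV) : ST_LAND := by
  intro m N β c hN φ hφ hi n hz u hu k
  have hφ1 : ContDiffOn ℝ 1 φ (SD m) := hφ.of_le (by norm_num)
  have cφ := land_continuous_lf β c hu hφ1.continuousOn
  have cX := land_continuous_lf β c hu (land_c0_xx hφ1 k)
  have cY := land_continuous_lf β c hu (land_c0_yy hφ1 k)
  have hc := hN.cpos
  rw [land_cellInt β c (F := fun p => ‖φ p‖ ^ 2) (cφ.norm.pow 2) (fun p => by positivity),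
    land_cellInt β c (F := fun p => ‖XX k φ p‖ ^ 2 + ‖YY k φ p‖ ^ 2)
      ((cX.norm.pow 2).add (cY.norm.pow 2)) (fun p => by positivity),
    ← ENNReal.ofReal_mul (by positivity)]
  exact ENNReal.ofReal_le_ofReal (land_real hdiv hN hφ hi n hz hu k)

end

end Pool.Agent.Helper19.Un
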