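import Pool.Agent.Helper56.Un.E8Stmts

set_option autoImplicit false

/-!
# E_T1: the cusps of type 1, first hinge
-/

namespace Pool.Agent.Helper19.Un

theorem et1_three (B w : ℝ) :
    max 0 (B - 3 * (w - 2) ^ 2) + (max 0 (B - 3 * w ^ 2) + max 0 (B - 3 * (w + 2) ^ 2)) ≤
      max 0 (max B (max (2 * B - 6) (3 * B - 24))) := by
  have m0 : 0 ≤ max 0 (max B (max (2 * B - 6) (3 * B - 24))) := le_max_left _ _
  have m1 : B ≤ max 0 (max B (max (2 * B - 6) (3 * B - 24))) :=
    (le_max_left _ _).trans (le_max_right _ _)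
  have m2 : 2 * B - 6 ≤ max 0 (max B (max (2 * B - 6) (3 * B - 24))) :=
    ((le_max_left _ _).trans (le_max_right _ _)).trans (le_max_right _ _)
  have m3 : 3 * B - 24 ≤ max 0 (max B (max (2 * B - 6) (3 * B - 24))) :=
    ((le_max_right _ _).trans (le_max_right _ _)).trans (le_max_right _ _)
  have s0 := sq_nonneg w
  have s1 := sq_nonneg (w - 2)
  have s2 := sq_nonneg (w + 2)
  have s3 := sq_nonneg (w - 1)
  have s4 := sq_nonneg (w + 1)
  rcases max_choice 0 (B - 3 * (w - 2) ^ 2) with h1 | h1 <;>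
    rcases max_choice 0 (B - 3 * w ^ 2) with h2 | h2 <;>
      rcases max_choice 0 (B - 3 * (w + 2) ^ 2) with h3 | h3 <;>
        rw [h1, h2, h3]
  · linarith
  · linarith
  · linarith
  · refine le_trans ?_ m2; nlinarith
  · linarith
  · refine le_trans ?_ m2; nlinarith
  · refine le_trans ?_ m2; nlinarith
  · refine le_trans ?_ m3; nlinarith

theorem et1_n (B v : ℝ) (hB : B ≤ 27) (T : Finset ℤ) :
    ∑ n ∈ T, max 0 (B - 3 * (v + 2 * n) ^ 2) ≤
      max 0 (max B (max (2 * B - 6) (3 * B - 24))) := by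
  classical
  set n0 : ℤ := round (-v / 2) with hn0
  have hw : |v + 2 * n0| ≤ 1 := by
    have := abs_sub_round (-v / 2)
    rw [← hn0] at this
    rw [abs_le] at this ⊢
    constructor <;> linarith [this.1, this.2]
  have hle : ∑ n ∈ T, max 0 (B - 3 * (v + 2 * n) ^ 2) ≤
      ∑ n ∈ ({n0 - 1, n0, n0 + 1} : Finset ℤ), max 0 (B - 3 * (v + 2 * n) ^ 2) := by
    rw [← Finset.sum_filter_ne_zero]
    refine Finset.sum_le_sum_of_subset_of_nonneg ?_ (fun n _ _ => le_max_left _ _)
    intro n hnf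
    have hne := (Finset.mem_filter.1 hnf).2
    by_contra hmem
    simp only [Finset.mem_insert, Finset.mem_singleton, not_or] at hmem
    obtain ⟨a1, a2, a3⟩ := hmem
    apply hne
    apply max_eq_left
    have hcase : n ≤ n0 - 2 ∨ n0 + 2 ≤ n := by omega
    rw [abs_le] at hw
    rcases hcase with h | h
    · have h' : (n : ℝ) ≤ n0 - 2 := by exact_mod_cast h
      have h3 : v + 2 * n ≤ -3 := by linarith [hw.2]
      nlinarith
    · have h' : (n0 : ℝ) + 2 ≤ n := by exact_mod_cast h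
      have h3 : 3 ≤ v + 2 * n := by linarith [hw.1]
      nlinarith
  refine hle.trans ?_
  rw [Finset.sum_insert, Finset.sum_insert, Finset.sum_singleton]
  · have := et1_three B (v + 2 * n0)
    refine le_trans (le_of_eq ?_) this
    push_cast
    ring_nf
  · simp
  · simp only [Finset.mem_insert, Finset.mem_singleton, not_or]
    constructor <;> omega

theorem et1_B {H d : ℝ} (hH : 3 / 2 ≤ H) (hd : 0 ≤ d) :
    231 / 25 * H - (3 / 2 * d + H) ^ 2 ≤ 27 := by
  nlinarith [mul_nonneg hd (show (0 : ℝ) ≤ H by linarith), sq_nonneg d, sq_nonneg (H - 462 / 100)]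

/-- heights at least `17 / 10` -/
theorem et1_bound1 {H d : ℝ} (hH : 17 / 10 ≤ H) (hd : 0 ≤ d) :
    max 0 (max (231 / 25 * H - (3 / 2 * d + H) ^ 2)
      (max (2 * (231 / 25 * H - (3 / 2 * d + H) ^ 2) - 6)
        (3 * (231 / 25 * H - (3 / 2 * d + H) ^ 2) - 24))) ≤
    12 * H * (31 / 100 * max 0 (1 - d) + 513 / 1000 * max 0 (77 / 50 - d)) := by
  have hH0 : 0 ≤ H := by linarith
  have hR : 0 ≤ 12 * H * (31 / 100 * max 0 (1 - d) + 513 / 1000 * max 0 (77 / 50 - d)) := by
    have := le_max_left 0 (1 - d)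
    have := le_max_left 0 (77 / 50 - d)
    positivity
  rcases le_total d 1 with h1 | h1
  · rw [max_eq_right (by linarith : 0 ≤ 1 - d), max_eq_right (by linarith : 0 ≤ 77 / 50 - d)]
    rw [max_eq_right (by linarith : 0 ≤ 1 - d), max_eq_right (by linarith : 0 ≤ 77 / 50 - d)] at hR
    have hdH : 0 ≤ d * H := mul_nonneg hd hH0
    refine max_le hR (max_le ?_ (max_le ?_ ?_))
    · nlinarith [sq_nonneg (H - 3 / 2 * d), mul_nonneg hH0 (sub_nonneg.2 h1)]
    · nlinarith [sq_nonneg (H - 131994 / 100000 - 969 / 1000 * d), sq_nonneg (d - 97558 / 100000)]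
    · nlinarith [sq_nonneg (H - 241996 / 100000 - 146 / 1000 * d), sq_nonneg d]
  · rw [max_eq_left (by linarith : 1 - d ≤ 0)]
    rw [max_eq_left (by linarith : 1 - d ≤ 0)] at hR
    rcases le_total d (77 / 50) with h2 | h2
    · rw [max_eq_right (by linarith : 0 ≤ 77 / 50 - d)]
      rw [max_eq_right (by linarith : 0 ≤ 77 / 50 - d)] at hR
      refine max_le hR (max_le ?_ (max_le ?_ ?_))
      · nlinarith [sq_nonneg (H - 3 / 2 * d), mul_nonneg hH0 (sub_nonneg.2 h2)]
      · nlinarith [sq_nonneg (H - 224994 / 100000 - 39 / 1000 * d), sq_nonneg (d - 1)]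
      · nlinarith [sq_nonneg (H - 303996 / 100000 + 474 / 1000 * d), sq_nonneg (d - 1)]
    · rw [max_eq_left (by linarith : 77 / 50 - d ≤ 0)]
      have h3 : 231 / 25 * H - (3 / 2 * d + H) ^ 2 ≤ 0 := by
        nlinarith [sq_nonneg (H - 231 / 100), mul_nonneg (sub_nonneg.2 h2) hH0]
      rw [mul_zero, mul_zero, add_zero, mul_zero]
      refine max_le le_rfl (max_le h3 (max_le ?_ ?_)) <;> linarith

/-- heights less than `17 / 10` -/
theorem et1_bound2 {H d : ℝ} (hH : 3 / 2 ≤ H) (hH2 : H < 17 / 10) (hd : 3 ≤ 3 / 2 * d + H) :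
    max 0 (max (231 / 25 * H - (3 / 2 * d + H) ^ 2)
      (max (2 * (231 / 25 * H - (3 / 2 * d + H) ^ 2) - 6)
        (3 * (231 / 25 * H - (3 / 2 * d + H) ^ 2) - 24))) ≤
    12 * H * (205 / 1000 * max 0 (1 - d) + 1 / 2 * max 0 (77 / 50 - d)) := by
  have hH0 : 0 ≤ H := by linarith
  have hR : 0 ≤ 12 * H * (205 / 1000 * max 0 (1 - d) + 1 / 2 * max 0 (77 / 50 - d)) := by
    have := le_max_left 0 (1 - d)
    have := le_max_left 0 (77 / 50 - d)
    positivity
  have h3 : 3 * (231 / 25 * H - (3 / 2 * d + H) ^ 2) - 24 ≤ 0 := by nlinarith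
  rcases le_total d 1 with h1 | h1
  · rw [max_eq_right (by linarith : 0 ≤ 1 - d), max_eq_right (by linarith : 0 ≤ 77 / 50 - d)]
    rw [max_eq_right (by linarith : 0 ≤ 1 - d), max_eq_right (by linarith : 0 ≤ 77 / 50 - d)] at hR
    refine max_le hR (max_le ?_ (max_le ?_ (h3.trans hR)))
    · nlinarith [sq_nonneg (H - 3 / 2 * d), mul_nonneg hH0 (sub_nonneg.2 h1)]
    · have e1 : 0 ≤ (d - (2 - 2 / 3 * H)) * (9 / 2 * (d + (2 - 2 / 3 * H)) - 246 / 100 * H) := by
        apply mul_nonneg <;> linarith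
      have e2 : 0 ≤ (17 / 10 - H) * (2412 / 100 - 1128 / 100 * H + 0 * H) := by
        apply mul_nonneg <;> linarith
      nlinarith [sq_nonneg (17 / 10 - H), mul_nonneg (sub_nonneg.2 hH2.le) (sub_nonneg.2 hH)]
  · rw [max_eq_left (by linarith : 1 - d ≤ 0)]
    rw [max_eq_left (by linarith : 1 - d ≤ 0)] at hR
    rcases le_total d (77 / 50) with h2 | h2
    · rw [max_eq_right (by linarith : 0 ≤ 77 / 50 - d)]
      rw [max_eq_right (by linarith : 0 ≤ 77 / 50 - d)] at hR
      refine max_le hR (max_le ?_ (max_le ?_ (h3.trans hR)))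
      · nlinarith [sq_nonneg (H - 3 / 2 * d), mul_nonneg hH0 (sub_nonneg.2 h2)]
      · nlinarith [mul_nonneg (sub_nonneg.2 hH2.le) (sub_nonneg.2 hH), sq_nonneg (d - 1)]
    · rw [max_eq_left (by linarith : 77 / 50 - d ≤ 0)]
      have h3 : 231 / 25 * H - (3 / 2 * d + H) ^ 2 ≤ 0 := by
        nlinarith [sq_nonneg (H - 231 / 100), mul_nonneg (sub_nonneg.2 h2) hH0]
      rw [mul_zero, mul_zero, add_zero, mul_zero]
      refine max_le le_rfl (max_le h3 (max_le ?_ ?_)) <;> linarith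

theorem et1_sq_nonneg (z : Fin 8 → ℝ) (A : Fin 8 → ℤ) : 0 ≤ sq8 z A :=
  Finset.sum_nonneg fun _ _ => sq_nonneg _

/-- the general scheme -/
theorem et1_scheme (hK : ST_EKER) {H : ℝ} (z : Fin 8 → ℝ) (v : (Fin 8 → ℤ) → ℝ) (hH : 3 / 2 ≤ H)
    (G : Finset ((Fin 8 → ℤ) × ℤ)) (hG : ∀ g ∈ G, GA g.1) {a b : ℝ} (ha : 0 ≤ a) (hb : 0 ≤ b)
    (hab : ∀ A, GA A → max 0 (max (231 / 25 * H - (3 / 2 * sq8 z A + H) ^ 2)
      (max (2 * (231 / 25 * H - (3 / 2 * sq8 z A + H) ^ 2) - 6)
        (3 * (231 / 25 * H - (3 / 2 * sq8 z A + H) ^ 2) - 24))) ≤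
      12 * H * (a * max 0 (1 - sq8 z A) + b * max 0 (77 / 50 - sq8 z A))) :
    ∑ g ∈ G, max 0 (77 / 100 - u1 H (sq8 z g.1) (v g.1 + 2 * g.2)) ≤ a + b * (241 / 25) := by
  classical
  have hH0 : 0 < H := by linarith
  rw [← Finset.sum_fiberwise_of_maps_to (t := G.image Prod.fst) (g := Prod.fst)
    (fun g hg => Finset.mem_image_of_mem _ hg)]
  have hGA : ∀ A ∈ G.image Prod.fst, GA A := by
    intro A hA
    obtain ⟨g, hg, rfl⟩ := Finset.mem_image.1 hA
    exact hG g hg
  have hfib : ∀ A ∈ G.image Prod.fst,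
      ∑ g ∈ G.filter (fun g => g.1 = A),
        max 0 (77 / 100 - u1 H (sq8 z g.1) (v g.1 + 2 * g.2)) ≤
      a * max 0 (1 - sq8 z A) + b * max 0 (77 / 50 - sq8 z A) := by
    intro A hA
    have e1 : ∑ g ∈ G.filter (fun g => g.1 = A),
        max 0 (77 / 100 - u1 H (sq8 z g.1) (v g.1 + 2 * g.2)) =
        ∑ n ∈ (G.filter (fun g => g.1 = A)).image Prod.snd,
          max 0 ((231 / 25 * H - (3 / 2 * sq8 z A + H) ^ 2) - 3 * (v A + 2 * n) ^ 2) /
            (12 * H) := by
      rw [Finset.sum_image]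
      · refine Finset.sum_congr rfl fun g hg => ?_
        rw [(Finset.mem_filter.1 hg).2]
        rw [eq_div_iff (by positivity), max_mul_of_nonneg _ _ (by positivity), zero_mul]
        congr 1
        unfold u1
        field_simp
        ring
      · intro g hg g' hg' hgg
        have h1 := (Finset.mem_filter.1 hg).2
        have h2 := (Finset.mem_filter.1 hg').2
        exact Prod.ext (h1.trans h2.symm) hgg
    rw [e1, ← Finset.sum_div, div_le_iff₀ (by positivity)]
    refine (et1_n _ (v A) (et1_B hH (et1_sq_nonneg z A)) _).trans ?_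
    refine (hab A (hGA A hA)).trans (le_of_eq (by ring))
  refine (Finset.sum_le_sum hfib).trans ?_
  rw [Finset.sum_add_distrib, ← Finset.mul_sum, ← Finset.mul_sum]
  have k1 := hK z _ hGA 1 le_rfl (by norm_num)
  have k2 := hK z _ hGA (77 / 50) (by norm_num) (by norm_num)
  have k3 := mul_le_mul_of_nonneg_left k1 ha
  have k4 := mul_le_mul_of_nonneg_left k2 hb
  linarith

theorem st_ET1 (hK : ST_EKER) : ST_ET1 := by
  intro H z v hH hu G hG
  have hH0 : 0 < H := by linarith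
  have hq : ∀ A, GA A → 3 ≤ 3 / 2 * sq8 z A + H := by
    intro A hA
    have hw : |v A + 2 * (round (-v A / 2) : ℤ)| ≤ 1 := by
      have := abs_sub_round (-v A / 2)
      rw [abs_le] at this ⊢
      constructor <;> linarith [this.1, this.2]
    have h1 := hu A hA (round (-v A / 2))
    unfold u1 at h1
    rw [div_le_div_iff₀ hH0 (by positivity)] at h1
    have h2 : (v A + 2 * (round (-v A / 2) : ℤ)) ^ 2 ≤ 1 := (sq_le_one_iff_abs_le_one _).2 hw
    have h3 : 12 ≤ (3 / 2 * sq8 z A + H) ^ 2 + 3 * (v A + 2 * (round (-v A / 2) : ℤ)) ^ 2 := by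
      by_contra hcon
      push Not at hcon
      have := mul_lt_mul_of_pos_right hcon hH0
      linarith
    have h4 : 9 ≤ (3 / 2 * sq8 z A + H) ^ 2 := by linarith
    have h5 := et1_sq_nonneg z A
    by_contra hcon
    push Not at hcon
    nlinarith
  unfold b1
  split_ifs with h
  · refine (et1_scheme hK z v hH G hG (a := 205 / 1000) (b := 1 / 2) (by norm_num) (by norm_num)
      fun A hA => et1_bound2 hH h (hq A hA)).trans ?_
    norm_num
  · push Not at h
    refine (et1_scheme hK z v hH G hG (a := 31 / 100) (b := 513 / 1000) (by norm_num)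
      (by norm_num) fun A _ => et1_bound1 h (et1_sq_nonneg z A)).trans ?_
    norm_num

end Pool.Agent.Helper19.Un
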