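import Pool.Agent.Helper56.Un.E8Stmts

set_option autoImplicit false

/-!
# E_G: lower bounds of `gE (77 / 100 - A)`
-/

namespace Pool.Agent.Helper19.Un

theorem eg_div {u : ℝ} (hu : u ≠ 0) :
    25 * ((14 / 5) / u - 1053 / 250) * u = 70 - 1053 / 10 * u ∧
    25 * ((14 / 5) / u - 1053 / 250) * u ^ 2 = 70 * u - 1053 / 10 * u ^ 2 := by
  have h : (14 / 5) / u * u = 14 / 5 := div_mul_cancel₀ _ hu
  constructor
  · linear_combination 25 * h
  · linear_combination 25 * u * h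

theorem eg_mono {A B : ℝ} (_h0 : 0 ≤ A) (h : A ≤ B) (hB : B ≤ 1 / 4) :
    A * (77 / 100 - A) ^ 2 ≤ B * (77 / 100 - B) ^ 2 := by
  have h1 : 0 ≤ (5929 / 10000 : ℝ) - 154 / 100 * (A + B) + A ^ 2 + A * B + B ^ 2 := by
    nlinarith [mul_nonneg (sub_nonneg.2 hB) (sub_nonneg.2 (h.trans hB)),
      sq_nonneg (A - 1 / 4), sq_nonneg (B - 1 / 4)]
  have h2 : B * (77 / 100 - B) ^ 2 - A * (77 / 100 - A) ^ 2 =
      (B - A) * ((5929 / 10000 : ℝ) - 154 / 100 * (A + B) + A ^ 2 + A * B + B ^ 2) := by ring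
  have h3 := mul_nonneg (sub_nonneg.2 h) h1
  linarith

theorem eg_low {u P c : ℝ} (hu : 0 < u) (hP : wt u = P) (hP0 : 0 ≤ P)
    (h1 : ∀ K : ℝ, 52634 / 1000 ≤ K → K ≤ 5265 / 100 → c * u ≤ K * P)
    (h2 : c * u ^ 2 ≤ (29019 / 1000 * u + 13158 / 1000) * P) : c ≤ gE u := by
  have p1 : (3.1415 : ℝ) < Real.pi := Real.pi_gt_d4
  have p2 : Real.pi < 3.1416 := Real.pi_lt_d4
  have s1 : Real.sqrt 3 ^ 2 = 3 := Real.sq_sqrt (by norm_num)
  have s2 : Real.sqrt 3 < 173206 / 100000 := by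
    rw [Real.sqrt_lt' (by norm_num)]
    norm_num
  have s0 : 0 < Real.sqrt 3 := Real.sqrt_pos.2 (by norm_num)
  have q1 : (9.86902 : ℝ) ≤ Real.pi ^ 2 := by nlinarith
  have q2 : Real.pi ^ 2 ≤ 9.86966 := by nlinarith
  have k1 : (29019 / 1000 : ℝ) ≤ (4 : ℕ) * (4 * Real.pi / Real.sqrt 3) := by
    push_cast
    rw [← mul_div_assoc, le_div_iff₀ s0]
    nlinarith
  have k2 : (13158 / 1000 : ℝ) ≤ 4 * Real.pi ^ 2 / Real.sqrt 3 ^ 2 := by
    rw [s1]
    linarith
  unfold gE muP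
  rw [hP, min_mul_of_nonneg _ _ hP0]
  apply le_min
  · have h3 := h1 (4 * Real.pi ^ 2 * (4 / 3)) (by linarith) (by linarith)
    rw [mul_one_div, div_mul_eq_mul_div, le_div_iff₀ hu]
    exact h3
  · have e1 : ((((4 : ℕ) : ℝ) * (4 * Real.pi / Real.sqrt 3)) * (1 / u) +
        4 * Real.pi ^ 2 / Real.sqrt 3 ^ 2 * (1 / u) ^ 2) * P =
        ((((4 : ℕ) : ℝ) * (4 * Real.pi / Real.sqrt 3)) * u +
        4 * Real.pi ^ 2 / Real.sqrt 3 ^ 2) * P / u ^ 2 := by
      field_simp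
    rw [e1, le_div_iff₀ (by positivity)]
    refine h2.trans (mul_le_mul_of_nonneg_right ?_ hP0)
    exact add_le_add (mul_le_mul_of_nonneg_right k1 hu.le) k2

theorem eg_wt1 {A : ℝ} (h0 : 0 ≤ A) (h1 : A ≤ 21 / 100) : wt (77 / 100 - A) = A := by
  unfold wt
  rw [max_eq_right (by linarith), max_eq_left (by linarith)]
  ring

theorem eg_wt2 {A : ℝ} (h1 : 21 / 100 ≤ A) : wt (77 / 100 - A) = 2 * A - 21 / 100 := by
  unfold wt
  rw [max_eq_right (by linarith), max_eq_right (by linarith)]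
  ring

/-- the first three clauses -/
theorem eg_small {A B k : ℝ} (h0 : 0 ≤ A) (h : A ≤ B) (hB : B ≤ 21 / 100) (hk : 0 ≤ k)
    (c1 : k * (B * (77 / 100 - B)) ≤ 52634 / 1000)
    (c2 : k * (B * (77 / 100 - B) ^ 2) ≤ 29019 / 1000 * (77 / 100 - B) + 13158 / 1000) :
    k * A ^ 2 ≤ gE (77 / 100 - A) := by
  have hm := mul_le_mul_of_nonneg_left (eg_mono h0 h (by linarith)) hk
  have hm1 : A * (77 / 100 - A) ≤ B * (77 / 100 - B) := by nlinarith
  have hm2 := mul_le_mul_of_nonneg_left hm1 hk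
  apply eg_low (by linarith) (eg_wt1 h0 (by linarith)) h0
  · intro K hK _
    have e1 : k * A ^ 2 * (77 / 100 - A) = (k * (A * (77 / 100 - A))) * A := by ring
    rw [e1]
    exact mul_le_mul_of_nonneg_right (by linarith) h0
  · have e1 : k * A ^ 2 * (77 / 100 - A) ^ 2 = (k * (A * (77 / 100 - A) ^ 2)) * A := by ring
    rw [e1]
    exact mul_le_mul_of_nonneg_right (by linarith) h0

theorem st_EG : ST_EG := by
  intro A h0 h1
  refine ⟨?_, ?_, ?_, ?_, ?_⟩
  · rcases le_total A (21 / 100) with h | h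
    · exact eg_small (B := 21 / 100) h0 h le_rfl (by norm_num) (by norm_num) (by norm_num)
    · apply eg_low (by linarith) (eg_wt2 h) (by linarith)
      · intro K hK _
        have e1 : 52634 / 1000 * (2 * A - 21 / 100) ≤ K * (2 * A - 21 / 100) :=
          mul_le_mul_of_nonneg_right hK (by linarith)
        refine le_trans ?_ e1
        nlinarith [mul_nonneg (sub_nonneg.2 h) (sub_nonneg.2 h1), mul_nonneg h0 (sub_nonneg.2 h),
          mul_nonneg h0 (mul_nonneg (sub_nonneg.2 h) (sub_nonneg.2 h1)),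
          mul_nonneg (sub_nonneg.2 h) (sq_nonneg (A - 35 / 100))]
      · nlinarith [mul_nonneg (sub_nonneg.2 h) (sub_nonneg.2 h1), mul_nonneg h0 (sub_nonneg.2 h),
          mul_nonneg h0 (mul_nonneg (sub_nonneg.2 h) (sub_nonneg.2 h1)),
          mul_nonneg (sub_nonneg.2 h) (sq_nonneg (A - 35 / 100)),
          mul_nonneg (mul_nonneg (sub_nonneg.2 h) (sub_nonneg.2 h1))
            (mul_nonneg (sub_nonneg.2 h) (sub_nonneg.2 h1))]
  · intro h
    exact eg_small h0 h (by norm_num) (by norm_num) (by norm_num) (by norm_num)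
  · intro h
    exact eg_small h0 h (by norm_num) (by norm_num) (by norm_num) (by norm_num)
  · intro h
    exact eg_small h0 h (by norm_num) (by norm_num) (by norm_num) (by norm_num)
  · intro h
    have hu : 0 < 77 / 100 - A := by linarith
    apply eg_low hu (eg_wt2 (by linarith)) (by linarith)
    · intro K hK1 hK2
      rw [(eg_div hu.ne').1]
      nlinarith
    · rw [(eg_div hu.ne').2]
      nlinarith

end Pool.Agent.Helper19.Un
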